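import Pool.Agent.H90.STK.Stmts3

/-!
# From the near lines to the multiplicity, in one slab
-/

set_option autoImplicit false

namespace Pool.STK

open Finset Real MeasureTheory
open scoped RealInnerProductSpace
open Pool.Agent.H49.Ent Pool.Agent.H32.Dense
open Pool.Agent.H53.Kak (E tube)
open Pool.Agent.H53.Dns (Mx psl slp)

namespace TV2

variable {d : ℕ} {ι : Type}

lemma hm_pos (d : ℕ) : 0 < hm d := by
  unfold hm
  positivity

lemma continuous_pt (u v : ι → Fin d → ℝ) (i : ι) (l : Fin d) :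
    Continuous fun s : ℝ => pt u v s i l := by
  unfold pt
  fun_prop

lemma nr_eq [Fintype ι] (k : Fin (d + 1)) (g : ℤ) (δ : ℝ) (c e : ι → E d) (s : ℝ) (i : ι) :
    nr k g δ c e s i = ∑ j, ({t : ℝ | ∀ l, |pt (uT k g c e) (dT k e) t j l -
      pt (uT k g c e) (dT k e) t i l| ≤ 4 * δ}).indicator (fun _ => (1 : ℝ)) s := by
  classical
  unfold nr
  rw [Finset.card_filter]
  push_cast
  refine Finset.sum_congr rfl fun j _ => ?_
  by_cases h : ∀ l, |pt (uT k g c e) (dT k e) s j l - pt (uT k g c e) (dT k e) s i l| ≤ 4 * δ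
  · rw [if_pos h, Set.indicator_of_mem]
    exact h
  · rw [if_neg h, Set.indicator_of_notMem]
    exact h

lemma measurable_nr [Fintype ι] (k : Fin (d + 1)) (g : ℤ) (δ : ℝ) (c e : ι → E d) (i : ι) :
    Measurable fun s => nr k g δ c e s i := by
  have h1 : (fun s => nr k g δ c e s i) = fun s => ∑ j, ({t : ℝ | ∀ l,
      |pt (uT k g c e) (dT k e) t j l - pt (uT k g c e) (dT k e) t i l| ≤ 4 * δ}).indicator
        (fun _ => (1 : ℝ)) s := by
    funext s
    exact nr_eq k g δ c e s i
  rw [h1]
  refine Finset.measurable_sum _ fun j _ => Measurable.indicator measurable_const ?_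
  have h2 : {t : ℝ | ∀ l, |pt (uT k g c e) (dT k e) t j l -
      pt (uT k g c e) (dT k e) t i l| ≤ 4 * δ} = ⋂ l, {t : ℝ | |pt (uT k g c e) (dT k e) t j l -
      pt (uT k g c e) (dT k e) t i l| ≤ 4 * δ} := by
    ext t
    simp
  rw [h2]
  refine MeasurableSet.iInter fun l => IsClosed.measurableSet ?_
  exact isClosed_le (((continuous_pt _ _ j l).sub (continuous_pt _ _ i l)).abs) continuous_const

lemma one_le_nr [Fintype ι] (k : Fin (d + 1)) (g : ℤ) {δ : ℝ} (hδ : 0 < δ) (c e : ι → E d)
    (s : ℝ) (i : ι) : 1 ≤ nr k g δ c e s i := by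
  classical
  unfold nr
  have h1 : 0 < (univ.filter fun j => ∀ l, |pt (uT k g c e) (dT k e) s j l -
      pt (uT k g c e) (dT k e) s i l| ≤ 4 * δ).card := by
    rw [Finset.card_pos]
    refine ⟨i, Finset.mem_filter.2 ⟨Finset.mem_univ i, fun l => ?_⟩⟩
    rw [sub_self, abs_zero]
    positivity
  exact_mod_cast h1

lemma nr_le [Fintype ι] (k : Fin (d + 1)) (g : ℤ) (δ : ℝ) (c e : ι → E d)
    (s : ℝ) (i : ι) : nr k g δ c e s i ≤ Fintype.card ι := by
  classical
  unfold nr
  exact_mod_cast Finset.card_le_univ _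

lemma psl_eq (k : Fin (d + 1)) (g : ℤ) (c e : ι → E d) (h : ℝ) (i : ι) (l : Fin d) :
    psl k (c i) (e i) h l = pt (uT k g c e) (dT k e) (h / hm d - g) i l := by
  have h0 := (hm_pos d).ne'
  simp only [pt, uT, dT, psl]
  field_simp
  ring

/-- The multiplicity at a point of a tube is at most the number of near lines. -/
lemma mlt_le [Fintype ι] {k : Fin (d + 1)} {g : ℤ} {δ : ℝ} (hδ : 0 < δ) {c e : ι → E d}
    (hu : ∀ i, ‖e i‖ = 1) (hM : ∀ i, Mx k (e i)) {x : E d} {i : ι}
    (hx : x ∈ tube δ (c i) (e i)) : mlt δ c e x ≤ nr k g δ c e (x k / hm d - g) i := by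
  rw [nr_eq]
  unfold mlt
  refine Finset.sum_le_sum fun j _ => ?_
  by_cases hj : x ∈ tube δ (c j) (e j)
  · rw [Set.indicator_of_mem hj, Set.indicator_of_mem]
    intro l
    rw [← psl_eq, ← psl_eq]
    have h1 := Pool.Agent.H53.Dns.near_psl hδ.le (hM i) (hu i) hx l
    have h2 := Pool.Agent.H53.Dns.near_psl hδ.le (hM j) (hu j) hj l
    rw [abs_le] at h1 h2 ⊢
    constructor <;> linarith [h1.1, h1.2, h2.1, h2.2]
  · rw [Set.indicator_of_notMem hj]
    exact Set.indicator_nonneg (fun _ _ => zero_le_one) _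

lemma mlt_nat [Fintype ι] (δ : ℝ) (c e : ι → E d) (x : E d) : ∃ n : ℕ, mlt δ c e x = n := by
  classical
  refine ⟨(univ.filter fun i => x ∈ tube δ (c i) (e i)).card, ?_⟩
  unfold mlt
  rw [Finset.card_filter]
  push_cast
  refine Finset.sum_congr rfl fun i _ => ?_
  by_cases h : x ∈ tube δ (c i) (e i)
  · rw [if_pos h, Set.indicator_of_mem h]
  · rw [if_neg h, Set.indicator_of_notMem h]

lemma log_mlt_nonneg [Fintype ι] (δ : ℝ) (c e : ι → E d) (x : E d) :
    0 ≤ Real.log (mlt δ c e x) := by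
  obtain ⟨n, hn⟩ := mlt_nat δ c e x
  rw [hn]
  exact Real.log_natCast_nonneg n

/-- The coordinate map. -/
noncomputable def T (k : Fin (d + 1)) (x : E d) : ℝ × (Fin d → ℝ) :=
  (x k, fun l => x (k.succAbove l))

lemma measurePreserving_T (k : Fin (d + 1)) :
    MeasurePreserving (T k : E d → ℝ × (Fin d → ℝ)) volume volume := by
  have h3 := EuclideanSpace.volume_preserving_symm_measurableEquiv_toLp (Fin (d + 1))
  have h4 := volume_preserving_piFinSuccAbove (fun _ : Fin (d + 1) => ℝ) k
  exact h4.comp h3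

/-- The points near the line `i`, in the slab. -/
def Q (δ : ℝ) (k : Fin (d + 1)) (g : ℤ) (c e : ι → E d) (i : ι) : Set (ℝ × (Fin d → ℝ)) :=
  {z | ((g : ℝ) * hm d ≤ z.1 ∧ z.1 < ((g : ℝ) + 1) * hm d) ∧
    ∀ l, |z.2 l - pt (uT k g c e) (dT k e) (z.1 / hm d - g) i l| ≤ 2 * δ}

lemma measurableSet_Q (δ : ℝ) (k : Fin (d + 1)) (g : ℤ) (c e : ι → E d) (i : ι) :
    MeasurableSet (Q δ k g c e i) := by
  have h1 : MeasurableSet {z : ℝ × (Fin d → ℝ) | (g : ℝ) * hm d ≤ z.1 ∧
      z.1 < ((g : ℝ) + 1) * hm d} :=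
    (measurableSet_le measurable_const measurable_fst).inter
      (measurableSet_lt measurable_fst measurable_const)
  have h2 : MeasurableSet {z : ℝ × (Fin d → ℝ) |
      ∀ l, |z.2 l - pt (uT k g c e) (dT k e) (z.1 / hm d - g) i l| ≤ 2 * δ} := by
    have h3 : {z : ℝ × (Fin d → ℝ) |
        ∀ l, |z.2 l - pt (uT k g c e) (dT k e) (z.1 / hm d - g) i l| ≤ 2 * δ} =
        ⋂ l, {z : ℝ × (Fin d → ℝ) |
          |z.2 l - pt (uT k g c e) (dT k e) (z.1 / hm d - g) i l| ≤ 2 * δ} := by
      ext z
      simp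
    rw [h3]
    refine MeasurableSet.iInter fun l => measurableSet_le ?_ measurable_const
    have h4 : Measurable fun z : ℝ × (Fin d → ℝ) =>
        pt (uT k g c e) (dT k e) (z.1 / hm d - g) i l :=
      (continuous_pt _ _ i l).measurable.comp ((measurable_fst.div_const _).sub_const _)
    have h5 : Measurable fun z : ℝ × (Fin d → ℝ) => z.2 l :=
      (measurable_pi_apply l).comp measurable_snd
    exact (h5.sub h4).abs
  exact h1.inter h2

/-- The upper bound, in coordinates. -/
noncomputable def G [Fintype ι] (δ : ℝ) (k : Fin (d + 1)) (g : ℤ) (c e : ι → E d)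
    (z : ℝ × (Fin d → ℝ)) : ENNReal :=
  ∑ i, (Q δ k g c e i).indicator
    (fun z => ENNReal.ofReal (Real.log (nr k g δ c e (z.1 / hm d - g) i))) z

lemma measurable_G [Fintype ι] (δ : ℝ) (k : Fin (d + 1)) (g : ℤ) (c e : ι → E d) :
    Measurable (G δ k g c e) := by
  unfold G
  refine Finset.measurable_sum _ fun i _ => Measurable.indicator ?_ (measurableSet_Q δ k g c e i)
  refine ENNReal.measurable_ofReal.comp (Real.measurable_log.comp ?_)
  exact (measurable_nr k g δ c e i).comp ((measurable_fst.div_const _).sub_const _)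

lemma pointwise [Fintype ι] {k : Fin (d + 1)} {g : ℤ} {δ : ℝ} (hδ : 0 < δ) {c e : ι → E d}
    (hu : ∀ i, ‖e i‖ = 1) (hM : ∀ i, Mx k (e i)) {x : E d} (hx : x ∈ (sl k g : Set (E d))) :
    ENNReal.ofReal (mlt δ c e x * Real.log (mlt δ c e x)) ≤ G δ k g c e (T k x) := by
  have h0 := log_mlt_nonneg δ c e x
  have h1 : mlt δ c e x * Real.log (mlt δ c e x) =
      ∑ i, (tube δ (c i) (e i)).indicator (fun _ => (1 : ℝ)) x * Real.log (mlt δ c e x) := by
    rw [← Finset.sum_mul]
    rfl
  rw [h1, ENNReal.ofReal_sum_of_nonneg (fun i _ =>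
    mul_nonneg (Set.indicator_nonneg (fun _ _ => zero_le_one) _) h0)]
  unfold G
  refine Finset.sum_le_sum fun i _ => ?_
  by_cases hi : x ∈ tube δ (c i) (e i)
  · rw [Set.indicator_of_mem hi, one_mul, Set.indicator_of_mem]
    · apply ENNReal.ofReal_le_ofReal
      have h2 : mlt δ c e x ≤ nr k g δ c e ((T k x).1 / hm d - g) i := mlt_le hδ hu hM hi
      rcases (show 0 ≤ mlt δ c e x from by
        obtain ⟨n, hn⟩ := mlt_nat δ c e x
        rw [hn]; exact Nat.cast_nonneg n).eq_or_lt with h3 | h3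
      · rw [← h3, Real.log_zero]
        exact Real.log_nonneg (one_le_nr k g hδ c e _ i)
      · exact Real.log_le_log h3 h2
    · refine ⟨hx, fun l => ?_⟩
      rw [← psl_eq]
      exact Pool.Agent.H53.Dns.near_psl hδ.le (hM i) (hu i) hi l
  · rw [Set.indicator_of_notMem hi, zero_mul, ENNReal.ofReal_zero]
    exact zero_le

lemma volume_box (p : Fin d → ℝ) {δ : ℝ} (hδ : 0 < δ) :
    volume {y : Fin d → ℝ | ∀ l, |y l - p l| ≤ 2 * δ} = ENNReal.ofReal ((4 * δ) ^ d) := by
  have h1 : {y : Fin d → ℝ | ∀ l, |y l - p l| ≤ 2 * δ} =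
      Set.Icc (fun l => p l - 2 * δ) (fun l => p l + 2 * δ) := by
    ext y
    simp only [Set.mem_ofPred_eq, Set.mem_Icc, Pi.le_def]
    constructor
    · intro h
      constructor <;> intro l <;> have := abs_le.1 (h l) <;> linarith [this.1, this.2]
    · intro h l
      rw [abs_le]
      constructor <;> linarith [h.1 l, h.2 l]
  rw [h1, Real.volume_Icc_pi]
  have h2 : ∀ l : Fin d, ENNReal.ofReal (p l + 2 * δ - (p l - 2 * δ)) =
      ENNReal.ofReal (4 * δ) := by
    intro l
    congr 1
    ring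
  rw [Finset.prod_congr rfl fun l _ => h2 l, Finset.prod_const, Finset.card_univ,
    Fintype.card_fin, ENNReal.ofReal_pow (by positivity)]

end TV2

open TV2 in
theorem tv2_thm : TV2Stmt := by
  classical
  intro d
  have hm0 := TV2.hm_pos d
  refine ⟨hm d * 4 ^ d, by positivity, ?_⟩
  intro δ hδ hδ1 ι _ c e k g q hC
  obtain ⟨a, ha⟩ : ∃ a, a = (g : ℝ) * hm d := ⟨_, rfl⟩
  obtain ⟨b, hb⟩ : ∃ b, b = ((g : ℝ) + 1) * hm d := ⟨_, rfl⟩
  have hab : a ≤ b := by rw [ha, hb]; nlinarith
  -- the function of the height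
  obtain ⟨W, hW⟩ : ∃ W : ℝ → ℝ, W = fun s => ∑ i, Real.log (nr k g δ c e s i) := ⟨_, rfl⟩
  have hW0 : ∀ s, 0 ≤ W s := fun s => by
    rw [hW]
    exact Finset.sum_nonneg fun i _ => Real.log_nonneg (one_le_nr k g hδ c e s i)
  have hWm : Measurable W := by
    rw [hW]
    exact Finset.measurable_sum _ fun i _ => Real.measurable_log.comp (measurable_nr k g δ c e i)
  have hWb : ∀ s, W s ≤ Fintype.card ι * Real.log (Fintype.card ι) := by
    intro s
    rw [hW]
    refine (Finset.sum_le_card_nsmul _ _ (Real.log (Fintype.card ι)) fun i _ => ?_).trans ?_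
    · exact Real.log_le_log (by linarith [one_le_nr k g hδ c e s i]) (nr_le k g δ c e s i)
    · rw [nsmul_eq_mul, Finset.card_univ]
  -- reduction to the coordinates
  have hsl : MeasurableSet (sl k g : Set (E d)) := by
    have h1 : Measurable (fun x : E d => x k) :=
      (continuous_apply k |>.comp (PiLp.continuous_ofLp 2 _)).measurable
    exact (measurableSet_le measurable_const h1).inter (measurableSet_lt h1 measurable_const)
  have h1 : ∫⁻ x in (sl k g : Set (E d)), ENNReal.ofReal (mlt δ c e x * Real.log (mlt δ c e x)) ≤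
      ∫⁻ x : E d, G δ k g c e (T k x) := by
    rw [← lintegral_indicator hsl]
    refine lintegral_mono fun x => ?_
    by_cases hx : x ∈ (sl k g : Set (E d))
    · rw [Set.indicator_of_mem hx]
      exact pointwise hδ hC.unit hC.mx hx
    · rw [Set.indicator_of_notMem hx]
      exact zero_le
  have h2 : ∫⁻ x : E d, G δ k g c e (T k x) = ∫⁻ z, G δ k g c e z :=
    (measurePreserving_T k).lintegral_comp (measurable_G δ k g c e)
  have h3 : ∫⁻ z, G δ k g c e z = ∫⁻ h, ∫⁻ y, G δ k g c e (h, y) := by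
    rw [Measure.volume_eq_prod, lintegral_prod _ (measurable_G δ k g c e).aemeasurable]
  have h4 : ∀ h, ∫⁻ y, G δ k g c e (h, y) ≤
      (Set.Ico a b).indicator (fun h => ENNReal.ofReal ((4 * δ) ^ d * W (h / hm d - g))) h := by
    intro h
    by_cases hh : h ∈ Set.Ico a b
    · rw [Set.indicator_of_mem hh]
      have h5 : ∀ y, G δ k g c e (h, y) =
          ∑ i, ({y : Fin d → ℝ | ∀ l, |y l - pt (uT k g c e) (dT k e) (h / hm d - g) i l| ≤
            2 * δ}).indicator (fun _ =>
              ENNReal.ofReal (Real.log (nr k g δ c e (h / hm d - g) i))) y := by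
        intro y
        unfold G
        refine Finset.sum_congr rfl fun i _ => ?_
        by_cases hy : ∀ l, |y l - pt (uT k g c e) (dT k e) (h / hm d - g) i l| ≤ 2 * δ
        · rw [Set.indicator_of_mem, Set.indicator_of_mem]
          · exact hy
          · rw [ha, hb] at hh
            exact ⟨hh, hy⟩
        · rw [Set.indicator_of_notMem, Set.indicator_of_notMem]
          · exact hy
          · exact fun h6 => hy h6.2
      have hbm : ∀ i, MeasurableSet {y : Fin d → ℝ |
          ∀ l, |y l - pt (uT k g c e) (dT k e) (h / hm d - g) i l| ≤ 2 * δ} := by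
        intro i
        have h7 : {y : Fin d → ℝ |
            ∀ l, |y l - pt (uT k g c e) (dT k e) (h / hm d - g) i l| ≤ 2 * δ} =
            ⋂ l, {y : Fin d → ℝ |
              |y l - pt (uT k g c e) (dT k e) (h / hm d - g) i l| ≤ 2 * δ} := by
          ext y
          simp
        rw [h7]
        refine MeasurableSet.iInter fun l => measurableSet_le ?_ measurable_const
        exact ((measurable_pi_apply l).sub_const _).abs
      rw [lintegral_congr h5, lintegral_finsetSum _ fun i _ =>
        Measurable.indicator measurable_const (hbm i)]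
      have h6 : ∀ i ∈ (Finset.univ : Finset ι), ∫⁻ y, ({y : Fin d → ℝ | ∀ l,
          |y l - pt (uT k g c e) (dT k e) (h / hm d - g) i l| ≤ 2 * δ}).indicator (fun _ =>
              ENNReal.ofReal (Real.log (nr k g δ c e (h / hm d - g) i))) y =
          ENNReal.ofReal ((4 * δ) ^ d * Real.log (nr k g δ c e (h / hm d - g) i)) := by
        intro i _
        rw [lintegral_indicator_const (hbm i), volume_box _ hδ, mul_comm,
          ← ENNReal.ofReal_mul (by positivity)]
      rw [Finset.sum_congr rfl h6, ← ENNReal.ofReal_sum_of_nonneg (fun i _ =>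
        mul_nonneg (by positivity) (Real.log_nonneg (one_le_nr k g hδ c e _ i))),
        ← Finset.mul_sum, hW]
    · rw [Set.indicator_of_notMem hh]
      have h5 : ∀ y, G δ k g c e (h, y) = 0 := by
        intro y
        unfold G
        refine Finset.sum_eq_zero fun i _ => Set.indicator_of_notMem ?_ _
        intro h6
        rw [ha, hb] at hh
        exact hh h6.1
      rw [lintegral_congr h5]
      simp
  rw [h2, h3] at h1
  refine h1.trans ((lintegral_mono h4).trans ?_)
  rw [lintegral_indicator measurableSet_Ico]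
  have hGi : IntegrableOn (fun h => (4 * δ) ^ d * W (h / hm d - g)) (Set.Ico a b) := by
    refine Measure.integrableOn_of_bounded
      (M := (4 * δ) ^ d * (Fintype.card ι * Real.log (Fintype.card ι))) (by simp)
      ((hWm.comp ((measurable_id.div_const _).sub_const _)).const_mul _).aestronglyMeasurable
      (Filter.Eventually.of_forall fun t => ?_)
    rw [Real.norm_of_nonneg (mul_nonneg (by positivity) (hW0 _))]
    exact mul_le_mul_of_nonneg_left (hWb _) (by positivity)
  rw [← ofReal_integral_eq_lintegral_ofReal hGi (Filter.Eventually.of_forall fun h =>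
    mul_nonneg (by positivity) (hW0 _))]
  apply ENNReal.ofReal_le_ofReal
  rw [integral_Ico_eq_integral_Ioc, ← intervalIntegral.integral_of_le hab]
  have h5 : ∫ h in a..b, (4 * δ) ^ d * W (h / hm d - g) =
      hm d * ((4 * δ) ^ d * ∫ s in (0 : ℝ)..1, W s) := by
    rw [intervalIntegral.integral_comp_div_sub (fun s => (4 * δ) ^ d * W s) hm0.ne' (g : ℝ)]
    have h6 : a / hm d - g = 0 := by rw [ha]; field_simp; ring
    have h7 : b / hm d - g = 1 := by rw [hb]; field_simp; ring
    rw [h6, h7, intervalIntegral.integral_const_mul, smul_eq_mul]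
  rw [h5, hW, mul_pow]
  apply le_of_eq
  ring

end Pool.STK
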